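import Pool.Agent.X123.TLC.Main

/-!
# Counterexamples to the `t`-adic Littlewood conjecture with growth `log^{1+λ}`, `λ > 0`

All definitions (`absv`, `ofPoly`, `fracPart`, `Ball` with its metric, `M`, `growth`) are in
`Pool.Agent.X123.TLC.Defs` and follow the problem file word by word.

Idea of the proof. If the first `j₀` coefficients of `⟨NΘ⟩` vanish, with `N = t^k N'` and
`deg N' = h`, then the window of length `h + j₀` of the coefficient sequence of `Θ` starting at `k`
has linear complexity at most `h`. Give a window `w` the weight `θ^(|w| - 2 lc(w))` with
`θ = q^{1/(1+λ)} < q`. By Massey's lemma, appending a digit multiplies the weight by `θ` for at most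
one digit and makes it `1` for the others. Hence the total weight `Φ` of the windows ending at a
given place contracts on average over a block of digits, up to a linear term, and there is a tree
in which at least half of all blocks are allowed at each stage and along which `Φ` grows at most
linearly. All its branches lie in `M_q(f_λ)`, and its dimension tends to `1` with the block length.
-/

set_option autoImplicit false

namespace Pool.Agent.Results.MP_26f5de_nt.FullDimension

open Pool.Agent.X123.TLC

universe u

/-- For every finite field `F` and every real `λ > 0` the set `M_q(f_λ)` of the counterexamples to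
the `t`-adic Littlewood conjecture with growth function `log^{1+λ}` has Hausdorff dimension `1`;
in particular it is not true that for all finite fields and all real `λ < 1` this dimension
is `0`. -/
theorem result :
    (∀ (F : Type u) [Field F] [Finite F] (lam : ℝ), 0 < lam →
      dimH (M (F := F) (growth lam)) = 1) ∧
    ¬ (∀ (F : Type) [Field F] [Finite F] (lam : ℝ), lam < 1 →
      dimH (M (F := F) (growth lam)) = 0) := by
  refine ⟨fun F _ _ lam h => dimH_eq_one h, fun h => ?_⟩
  have : Fact (Nat.Prime 2) := ⟨Nat.prime_two⟩
  have h1 := h (ZMod 2) (1 / 2) (by norm_num)
  rw [dimH_eq_one (by norm_num)] at h1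
  exact one_ne_zero h1

end Pool.Agent.Results.MP_26f5de_nt.FullDimension
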